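import Pool.Agent.Q81.MC.Count

/-!
Coefficients of products of sums of distinct variables are at most the balanced multinomial
coefficient.
-/

open Pool.Agent.Q81.MC

namespace Pool.Agent.Results.MP_3eac50_co.BalancedMultinomial

/-- The balanced `k`-multinomial coefficient `n! / (((q+1)!)^s (q!)^(k-s))`, `n = q k + s`,
`0 ≤ s < k`. -/
def balanced (n k : ℕ) : ℕ :=
  n.factorial / ((n / k + 1).factorial ^ (n % k) * (n / k).factorial ^ (k - n % k))

/-- For every assignment `x` of variables `c_1, ..., c_r` to the symbols `x_{i,j}`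
(`i < n`, `j < k`) which is injective on each factor, every coefficient of
`∏ i, ∑ j, x_{i,j}` is at most the balanced multinomial coefficient. -/
theorem result (k n r : ℕ) (hk : 1 ≤ k) (hn : 1 ≤ n) (x : Fin n → Fin k → Fin r)
    (hx : ∀ i, Function.Injective (x i)) (α : Fin r →₀ ℕ) :
    MvPolynomial.coeff α (∏ i, ∑ j, (MvPolynomial.X (x i j) : MvPolynomial (Fin r) ℕ)) ≤
      balanced n k :=
  main hk hn x hx α

end Pool.Agent.Results.MP_3eac50_co.BalancedMultinomial
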